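import Mathlib

namespace Pool.Agent.Results.MP_49314d_al.NoUniversal

universe u v

/-- A group is right-orderable if it has a total order `≤` with `x ≤ y → x * z ≤ y * z`. -/
def RightOrderable (G : Type u) [Group G] : Prop :=
  ∃ o : LinearOrder G, ∀ x y z : G, o.le x y → o.le (x * z) (y * z)

/-- Working version, with a strict total relation. -/
structure StrictRO {G : Type u} [Group G] (r : G → G → Prop) : Prop where
  irrefl : ∀ a, ¬ r a a
  trans : ∀ a b c, r a b → r b c → r a c
  tri : ∀ a b, r a b ∨ a = b ∨ r b a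
  mul : ∀ a b c, r a b → r (a * c) (b * c)

theorem StrictRO.rightOrderable {G : Type u} [Group G] {r : G → G → Prop} (h : StrictRO r) :
    RightOrderable G := by
  classical
  have : IsStrictTotalOrder G r :=
    { trichotomous := by
        intro a b hab hba
        rcases h.tri a b with h1 | h1 | h1
        · exact absurd h1 hab
        · exact h1
        · exact absurd h1 hba
      irrefl := h.irrefl
      trans := h.trans }
  refine ⟨linearOrderOfSTO r, ?_⟩
  intro x y z hxy
  have h1 : x = y ∨ r x y := hxy
  show x * z = y * z ∨ r (x * z) (y * z)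
  rcases h1 with h1 | h1
  · exact Or.inl (by rw [h1])
  · exact Or.inr (h.mul _ _ _ h1)

theorem strictRO_int : StrictRO (fun a b : Multiplicative ℤ => a.toAdd < b.toAdd) where
  irrefl a := lt_irrefl _
  trans a b c := lt_trans
  tri a b := by
    rcases lt_trichotomy a.toAdd b.toAdd with h | h | h
    · exact Or.inl h
    · exact Or.inr (Or.inl (Multiplicative.toAdd.injective h))
    · exact Or.inr (Or.inr h)
  mul a b c h := by
    rw [toAdd_mul, toAdd_mul]
    exact add_lt_add_left h _

/-- Lexicographic order on a semidirect product, quotient first. -/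
def lexSemi {N : Type u} {K : Type v} [Group N] [Group K] (φ : K →* MulAut N)
    (r : N → N → Prop) (s : K → K → Prop) : N ⋊[φ] K → N ⋊[φ] K → Prop :=
  fun a b => s a.right b.right ∨ (a.right = b.right ∧ r a.left b.left)

theorem strictRO_semi {N : Type u} {K : Type v} [Group N] [Group K] (φ : K →* MulAut N)
    {r : N → N → Prop} {s : K → K → Prop} (hr : StrictRO r) (hs : StrictRO s) :
    StrictRO (lexSemi φ r s) where
  irrefl a h := by
    rcases h with h | ⟨_, h⟩
    · exact hs.irrefl _ h
    · exact hr.irrefl _ h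
  trans a b c hab hbc := by
    rcases hab with h1 | ⟨h1, h1'⟩ <;> rcases hbc with h2 | ⟨h2, h2'⟩
    · exact Or.inl (hs.trans _ _ _ h1 h2)
    · exact Or.inl (h2 ▸ h1)
    · exact Or.inl (h1 ▸ h2)
    · exact Or.inr ⟨h1.trans h2, hr.trans _ _ _ h1' h2'⟩
  tri a b := by
    rcases hs.tri a.right b.right with h | h | h
    · exact Or.inl (Or.inl h)
    · rcases hr.tri a.left b.left with h' | h' | h'
      · exact Or.inl (Or.inr ⟨h, h'⟩)
      · exact Or.inr (Or.inl (SemidirectProduct.ext h' h))
      · exact Or.inr (Or.inr (Or.inr ⟨h.symm, h'⟩))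
    · exact Or.inr (Or.inr (Or.inl h))
  mul a b c h := by
    rcases h with h | ⟨h, h'⟩
    · left
      rw [SemidirectProduct.mul_right, SemidirectProduct.mul_right]
      exact hs.mul _ _ _ h
    · right
      rw [SemidirectProduct.mul_right, SemidirectProduct.mul_right, SemidirectProduct.mul_left,
        SemidirectProduct.mul_left, h]
      exact ⟨rfl, hr.mul _ _ _ h'⟩

/-- Lexicographic order on a product indexed by a type with an injection to `ℕ`. -/
def lexPi {ι : Type v} {N : Type u} (e : ι → ℕ) (r : N → N → Prop) : (ι → N) → (ι → N) → Prop :=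
  fun f g => ∃ i, (∀ j, e j < e i → f j = g j) ∧ r (f i) (g i)

theorem strictRO_pi {ι : Type v} {N : Type u} [Group N] (e : ι → ℕ) (he : Function.Injective e)
    {r : N → N → Prop} (hr : StrictRO r) : StrictRO (lexPi e r) where
  irrefl f h := by
    obtain ⟨i, _, h⟩ := h
    exact hr.irrefl _ h
  trans f g h hfg hgh := by
    obtain ⟨i, hi, hi'⟩ := hfg
    obtain ⟨j, hj, hj'⟩ := hgh
    rcases lt_trichotomy (e i) (e j) with hij | hij | hij
    · refine ⟨i, fun k hk => (hi k hk).trans (hj k (hk.trans hij)), ?_⟩
      rw [← hj i hij]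
      exact hi'
    · obtain rfl := he hij
      exact ⟨i, fun k hk => (hi k hk).trans (hj k hk), hr.trans _ _ _ hi' hj'⟩
    · refine ⟨j, fun k hk => (hi k (hk.trans hij)).trans (hj k hk), ?_⟩
      rw [hi j hij]
      exact hj'
  tri f g := by
    by_cases hfg : f = g
    · exact Or.inr (Or.inl hfg)
    · have hex : ∃ n : ℕ, ∃ i, e i = n ∧ f i ≠ g i := by
        obtain ⟨i, hi⟩ := Function.ne_iff.mp hfg
        exact ⟨e i, i, rfl, hi⟩
      classical
      obtain ⟨i, hi, hne⟩ := Nat.find_spec hex
      have hmin : ∀ j, e j < e i → f j = g j := by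
        intro j hj
        by_contra hcon
        exact Nat.find_min hex (hi ▸ hj) ⟨j, rfl, hcon⟩
      rcases hr.tri (f i) (g i) with h | h | h
      · exact Or.inl ⟨i, hmin, h⟩
      · exact absurd h hne
      · exact Or.inr (Or.inr ⟨i, fun j hj => (hmin j hj).symm, h⟩)
  mul f g h hfg := by
    obtain ⟨i, hi, hi'⟩ := hfg
    refine ⟨i, fun j hj => ?_, hr.mul _ _ _ hi'⟩
    show f j * h j = g j * h j
    rw [hi j hj]

theorem strictRO_comap {G : Type u} {H : Type v} [Group G] [Group H] (f : G →* H)
    (hf : Function.Injective f) {r : H → H → Prop} (hr : StrictRO r) :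
    StrictRO (fun a b : G => r (f a) (f b)) where
  irrefl a := hr.irrefl _
  trans a b c := hr.trans _ _ _
  tri a b := by
    rcases hr.tri (f a) (f b) with h | h | h
    · exact Or.inl h
    · exact Or.inr (Or.inl (hf h))
    · exact Or.inr (Or.inr h)
  mul a b c h := by
    simp only [map_mul]
    exact hr.mul _ _ _ h

/-- The action of `ℤ` on `ℤ` where `1` acts by inversion. -/
def invAct : Multiplicative ℤ →* MulAut (Multiplicative ℤ) :=
  zpowersHom (MulAut (Multiplicative ℤ)) (MulEquiv.inv (Multiplicative ℤ))

/-- The Klein bottle group. -/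
abbrev K : Type := Multiplicative ℤ ⋊[invAct] Multiplicative ℤ

/-- First generator of the Klein bottle group. -/
def kx : K := SemidirectProduct.inl (Multiplicative.ofAdd 1)

/-- Second generator of the Klein bottle group. -/
def ky : K := SemidirectProduct.inr (Multiplicative.ofAdd 1)

theorem kx_ky : kx * ky ≠ ky * kx := by
  intro h
  have h1 := congrArg SemidirectProduct.left h
  rw [SemidirectProduct.mul_left, SemidirectProduct.mul_left] at h1
  have e1 : kx.left = Multiplicative.ofAdd 1 := rfl
  have e2 : kx.right = 1 := rfl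
  have e3 : ky.left = 1 := rfl
  have e4 : ky.right = Multiplicative.ofAdd 1 := rfl
  have e5 : invAct (Multiplicative.ofAdd 1) (Multiplicative.ofAdd 1) =
      (Multiplicative.ofAdd 1)⁻¹ := by
    simp [invAct, zpowersHom_apply]
  rw [e1, e2, e3, e4, e5, map_one invAct, MulAut.one_apply, mul_one, one_mul] at h1
  have h3 := congrArg Multiplicative.toAdd h1
  rw [toAdd_inv, toAdd_ofAdd] at h3
  exact absurd h3 (by norm_num)

/-- Translation of functions on `ℤ`. -/
def shiftEquiv (k : ℤ) : (ℤ → K) ≃* (ℤ → K) where
  toFun f := fun i => f (i - k)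
  invFun f := fun i => f (i + k)
  left_inv f := by
    funext i
    simp
  right_inv f := by
    funext i
    simp
  map_mul' f g := rfl

/-- The shift action. -/
def shift : Multiplicative ℤ →* MulAut (ℤ → K) where
  toFun k := shiftEquiv k.toAdd
  map_one' := by
    apply MulEquiv.ext
    intro f
    funext i
    show f (i - (1 : Multiplicative ℤ).toAdd) = f i
    rw [toAdd_one, sub_zero]
  map_mul' a b := by
    apply MulEquiv.ext
    intro f
    funext i
    show f (i - (a * b).toAdd) = f (i - a.toAdd - b.toAdd)
    rw [toAdd_mul]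
    congr 1
    ring

/-- The unrestricted wreath product of the Klein bottle group with `ℤ`. -/
abbrev W : Type := (ℤ → K) ⋊[shift] Multiplicative ℤ

theorem exists_strictRO_W : ∃ r : W → W → Prop, StrictRO r :=
  ⟨_, strictRO_semi shift
    (strictRO_pi (Encodable.encode : ℤ → ℕ) Encodable.encode_injective
      (strictRO_semi invAct strictRO_int strictRO_int)) strictRO_int⟩

/-- The base function attached to a set `S`: `kx` at `0` and `ky` at `s + 1` for `s ∈ S`. -/
noncomputable def base (S : Set ℕ) : ℤ → K := by
  classical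
  exact fun i => if i = 0 then kx else if ∃ s ∈ S, i = (s : ℤ) + 1 then ky else 1

/-- First generator. -/
noncomputable def ga (S : Set ℕ) : W := SemidirectProduct.inl (base S)

/-- Second generator. -/
def gt : W := SemidirectProduct.inr (Multiplicative.ofAdd 1)

theorem gt_pow (n : ℕ) : gt ^ n = SemidirectProduct.inr (Multiplicative.ofAdd (n : ℤ)) := by
  rw [gt, ← map_pow, ← ofAdd_nsmul]
  simp

theorem conj_ga (S : Set ℕ) (n : ℕ) :
    gt ^ n * ga S * (gt ^ n)⁻¹ = SemidirectProduct.inl (fun i => base S (i - n)) := by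
  rw [gt_pow, ga, ← map_inv, ← SemidirectProduct.inl_aut]
  rfl

theorem base_zero (S : Set ℕ) : base S 0 = kx := by
  simp [base]

theorem base_neg (S : Set ℕ) (i : ℤ) (hi : i < 0) : base S i = 1 := by
  classical
  unfold base
  rw [if_neg (by omega), if_neg]
  rintro ⟨s, _, hs⟩
  omega

theorem base_pos_mem (S : Set ℕ) (s : ℕ) (hs : s ∈ S) : base S ((s : ℤ) + 1) = ky := by
  classical
  unfold base
  rw [if_neg (by omega), if_pos ⟨s, hs, rfl⟩]

theorem base_pos_notMem (S : Set ℕ) (s : ℕ) (hs : s ∉ S) : base S ((s : ℤ) + 1) = 1 := by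
  classical
  unfold base
  rw [if_neg (by omega), if_neg]
  rintro ⟨t, ht, h⟩
  have : s = t := by omega
  exact hs (this ▸ ht)

theorem base_pos (S : Set ℕ) (i : ℤ) (hi : 0 < i) : base S i = ky ∨ base S i = 1 := by
  obtain ⟨s, rfl⟩ : ∃ s : ℕ, i = (s : ℤ) + 1 := ⟨(i - 1).toNat, by omega⟩
  by_cases hs : s ∈ S
  · exact Or.inl (base_pos_mem S s hs)
  · exact Or.inr (base_pos_notMem S s hs)

/-- The relation that decodes `S` from the two generators. -/
theorem decode (S : Set ℕ) (n : ℕ) :
    (ga S * (gt ^ (n + 1) * ga S * (gt ^ (n + 1))⁻¹) =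
      (gt ^ (n + 1) * ga S * (gt ^ (n + 1))⁻¹) * ga S) ↔ n ∉ S := by
  rw [conj_ga, ga, ← map_mul, ← map_mul, SemidirectProduct.inl_inj]
  constructor
  · intro h hn
    have h1 := congrFun h ((n : ℤ) + 1)
    simp only [Pi.mul_apply] at h1
    rw [base_pos_mem S n hn] at h1
    have h2 : ((n : ℤ) + 1 - ((n + 1 : ℕ) : ℤ)) = 0 := by push_cast; ring
    rw [h2, base_zero] at h1
    exact kx_ky h1.symm
  · intro hn
    funext i
    simp only [Pi.mul_apply]
    set j : ℤ := i - ((n + 1 : ℕ) : ℤ) with hj
    rcases lt_trichotomy j 0 with h | h | h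
    · rw [base_neg S j h, one_mul, mul_one]
    · have hi : i = (n : ℤ) + 1 := by
        rw [h] at hj
        push_cast at hj
        omega
      rw [hi, base_pos_notMem S n hn, one_mul, mul_one]
    · have hi : 0 < i := by
        push_cast at hj
        omega
      rcases base_pos S i hi with h1 | h1 <;> rcases base_pos S j h with h2 | h2 <;>
        rw [h1, h2] <;> simp

/-- The two-generator group attached to `S`. -/
noncomputable def hom (S : Set ℕ) : FreeGroup (Fin 2) →* W := FreeGroup.lift ![ga S, gt]

/-- No countable group contains a copy of every countable right-orderable group. -/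
theorem no_countable (U : Type u) [Group U] [Countable U] :
    ∃ (G : Type) (_ : Group G), Countable G ∧ RightOrderable G ∧
      ∀ f : G →* U, ¬ Function.Injective f := by
  by_contra hcon
  push Not at hcon
  have hRO : ∀ S : Set ℕ, RightOrderable (hom S).range := by
    intro S
    obtain ⟨r, hr⟩ := exists_strictRO_W
    exact (strictRO_comap (hom S).range.subtype (hom S).range.subtype_injective hr).rightOrderable
  have hC : ∀ S : Set ℕ, Countable (hom S).range := by
    intro S
    exact (Set.countable_range (hom S)).to_subtype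
  have hf : ∀ S : Set ℕ, ∃ f : (hom S).range →* U, Function.Injective f := by
    intro S
    exact hcon (hom S).range inferInstance (hC S) (hRO S)
  choose f hf using hf
  let a' : ∀ S : Set ℕ, (hom S).range := fun S =>
    ⟨ga S, ⟨FreeGroup.of 0, by simp [hom]⟩⟩
  let t' : ∀ S : Set ℕ, (hom S).range := fun S =>
    ⟨gt, ⟨FreeGroup.of 1, by simp [hom]⟩⟩
  have key : ∀ (S : Set ℕ) (n : ℕ),
      (f S (a' S) * (f S (t' S) ^ (n + 1) * f S (a' S) * (f S (t' S) ^ (n + 1))⁻¹) =
        (f S (t' S) ^ (n + 1) * f S (a' S) * (f S (t' S) ^ (n + 1))⁻¹) * f S (a' S)) ↔ n ∉ S := by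
    intro S n
    rw [← decode S n]
    rw [← map_pow, ← map_inv, ← map_mul, ← map_mul, ← map_mul, ← map_mul, (hf S).eq_iff,
      Subtype.ext_iff]
    rfl
  have hinj : Function.Injective (fun S : Set ℕ => (f S (a' S), f S (t' S))) := by
    intro S T hST
    have h1 : f S (a' S) = f T (a' T) := congrArg Prod.fst hST
    have h2 : f S (t' S) = f T (t' T) := congrArg Prod.snd hST
    ext n
    have hS := key S n
    have hT := key T n
    rw [h1, h2, hT] at hS
    exact not_iff_not.mp hS.symm
  have hcount : Countable (Set ℕ) := hinj.countable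
  have : ¬ Countable (Set ℕ) := by
    rw [← Cardinal.mk_le_aleph0_iff, not_le, Cardinal.mk_set, Cardinal.mk_nat]
    exact Cardinal.cantor _
  exact this hcount

/-- There is no countable right-orderable group into which every countable right-orderable group
embeds. -/
theorem result : ¬ ∃ (U : Type u) (_ : Group U), Countable U ∧ RightOrderable U ∧
    ∀ (G : Type) [Group G], Countable G → RightOrderable G →
      ∃ f : G →* U, Function.Injective f := by
  rintro ⟨U, hU, hc, _, h⟩
  obtain ⟨G, hG, hGc, hGo, hG'⟩ := no_countable U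
  obtain ⟨f, hf⟩ := h G hGc hGo
  exact hG' f hf

end Pool.Agent.Results.MP_49314d_al.NoUniversal
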